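import Pool.Agent.Q127.MS.Sum
import Pool.Agent.Q127.SR.Lift

/-!
Cancellation of connected summands for ribbon discs without triple points.

It is well known that the slice-ribbon conjecture is equivalent to the cancellation property of
ribbon knots: if `R` and `K # R` are ribbon, then `K` is ribbon (each slice knot `K` has a ribbon
connected sum `K # R` with a ribbon knot `R`). Here the cancellation property is proved for the knots
which bound discs without triple points, and for larger classes of singular discs of virtual links.

The definitions are in `Pool.Agent.Y468.SR.Defs` (`Pass`, `Code`, `Classical`, `WellFormed`, `Step`,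
`Movie`, `IsRibbon`), in `Pool.Agent.Q127.MS.Defs` (`Mono`, `VirtMovie`, `NullMatching`) and in
`Pool.Agent.Q127.SR.Defs` (`VSMovie`).
-/

namespace Pool.Agent.Results.MP_752436_gt.Cancellation

open Pool.Agent.Y468.SR Pool.Agent.Q127.MS
open Pool.Agent.Y874.TP (colour)
open Pool.Agent.Q127.SR (VSMovie)

/-- The knot with the Gauss code `w` bounds a singular disc by a movie of virtual links such that, for
some set of double curves (those whose colour is not in `Z`) containing all those meeting the knot,
the disc crosses itself only on the other double curves, and at most one branch of these double curves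
passes through each triple point. -/
def Disc (w : List Pass) : Prop :=
  ∃ Z : ℕ → Prop, (∀ p ∈ w, ¬Z (colour p.crossing)) ∧ VSMovie Z [(w, 0)] []

/-- the invariant of the knots with such a disc -/
theorem Disc.inv {w : List Pass} (h : Disc w) : Pool.Agent.Y468.SR.Inv [(w, 0)] := by
  obtain ⟨Z, hZ, h⟩ := h
  have h3 := Pool.Agent.Y874.TP2.V127.wmovie_vdel h
  rw [Pool.Agent.Y874.TP2.T4.del_eq (by simpa using hZ)] at h3
  exact inv_of_virt h3 inv_nil

/-- Let `k` and `r` be diagrams of classical knots `K` and `R` without common names of crossings, and
let `k ++ r` be the diagram of the connected sum `K # R` (the base points are the starting points of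
the words, which are arbitrary).

1. If `R` and `K # R` bound discs as in the definition of `Disc`, then the diagram `k` has a null
matching, `K` is ribbon, and `k` is simplified monotonically to the empty diagram with at most `n / 2`
saddles, where `n` is the number of crossings of `k`.
2. If the diagram `r` has a null matching, then `k ++ r` has a null matching if and only if `k` has
one. -/
theorem result (k r : List Pass) (hk : Classical [(k, 0)]) (hr : Classical [(r, 0)])
    (hd : ∀ p ∈ k, ∀ q ∈ r, p.crossing ≠ q.crossing) :
    (Disc r → Disc (k ++ r) →
      (∃ m : ℕ → ℕ, NullMatching [(k, 0)] m) ∧ IsRibbon k ∧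
        ∃ s : ℕ, 4 * s ≤ k.length ∧ Mono s [(k, 0)] []) ∧
    ((∃ m : ℕ → ℕ, NullMatching [(r, 0)] m) →
      ((∃ m : ℕ → ℕ, NullMatching [(k ++ r, 0)] m) ↔ ∃ m : ℕ → ℕ, NullMatching [(k, 0)] m)) := by
  refine ⟨fun h1 h2 => disc_of_inv hk (inv_cancel hk hr hd h1.inv h2.inv), ?_⟩
  rintro ⟨m₂, h2⟩
  refine ⟨?_, ?_⟩
  · rintro ⟨m, h⟩
    exact matching_of_inv (inv_cancel hk hr hd (inv_of_matching h2) (inv_of_matching h))
  · rintro ⟨m₁, h1⟩
    exact null_append hd h1 h2

end Pool.Agent.Results.MP_752436_gt.Cancellation
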