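import Pool.Agent.Q127.SR.Lift

/-!
Chains of concordances ending with the unknot. `Movie true false [(K, 0)] [(k, 0)]` is a movie of a
ribbon concordance from `k` to `K`, so that `k ≤ K`.
-/

namespace Pool.Agent.Results.MP_752436_gt.ChainsToTheUnknot

open Pool.Agent.Y468.SR Pool.Agent.Q127.SR

/-- Let the classical knot `k` be joined to the unknot by a chain of classical knots, any two
consecutive ones being the ends of a singular concordance, given by a movie of virtual links (in any
direction), such that for some set of double curves of its projection, containing all double curves
meeting the two ends, the concordance crosses itself only in points of double curves not in this set,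
and at most one of the three double curves (branches) through each triple point belongs to this
set. Then all knots `K ≥ k` are ribbon, in particular `k` is ribbon. -/
theorem result (K k : List Pass) (hk : Classical [(k, 0)])
    (h₁ : Movie true false [(K, 0)] [(k, 0)]) (h₂ : Relation.EqvGen VConc k []) : IsRibbon K :=
  Pool.Agent.Y874.TP2.V127.ribbon_of_veqvGen hk h₁ h₂

end Pool.Agent.Results.MP_752436_gt.ChainsToTheUnknot
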