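import Pool.Agent.Q127.MS.Knot
import Pool.Agent.Q127.SR.Lift

/-!
Discs without triple points: a criterion in terms of matchings of the crossings, and monotone
simplification with few saddles.

The definitions are in `Pool.Agent.Y468.SR.Defs` (`Pass`, `Code`, `Classical`, `WellFormed`, `Step`,
`Movie`), in `Pool.Agent.Q127.MS.Defs` (`Mono`, `VirtMovie`, `NullMatching`) and in
`Pool.Agent.Q127.SR.Defs` (`VSMovie`).
-/

namespace Pool.Agent.Results.MP_752436_gt.MatchingCriterion

open Pool.Agent.Y468.SR Pool.Agent.Q127.MS
open Pool.Agent.Y874.TP (colour)
open Pool.Agent.Q127.SR (VSMovie)

/-- Let `L` be a diagram of a classical link.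

1. The link bounds disjoint discs by a movie of virtual links without moves of type III (births of
components being allowed, and the numbers of crossings being arbitrary) if and only if the diagram has
a null matching: the crossings can be matched, crossings of opposite signs in pairs and some crossings
being left alone, such that the word of each component is trivial in the free group.
2. This holds if and only if the diagram `L` can be simplified monotonically to the empty diagram, by
moves of type I removing a crossing, deaths, and saddles each of which is followed at once by a move
of type II removing two crossings.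
3. Such a simplification of a diagram with `n` crossings has at most `n / 2` saddles, and it is a movie
of classical links without births and without moves of type III, so that the link bounds ribbon discs.
4. It is enough that the link bounds singular discs by a movie of virtual links such that, for some
set of double curves containing all those meeting the link, the discs cross themselves and one
another only on the other double curves, and at most one branch of these double curves passes through
each triple point.
5. All links from which a movie without births leads to a diagram with a null matching are ribbon. -/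
theorem result :
    (∀ L : List (List Pass), Classical L.zipIdx →
      (VirtMovie L.zipIdx [] ↔ ∃ m : ℕ → ℕ, NullMatching L.zipIdx m) ∧
      (VirtMovie L.zipIdx [] ↔ ∃ k : ℕ, Mono k L.zipIdx []) ∧
      (∀ k : ℕ, Mono k L.zipIdx [] →
        4 * k ≤ (passes L.zipIdx).length ∧ Movie false false L.zipIdx []) ∧
      (∀ Z : ℕ → Prop, (∀ p ∈ passes L.zipIdx, ¬Z (colour p.crossing)) →
        VSMovie Z L.zipIdx [] → ∃ m : ℕ → ℕ, NullMatching L.zipIdx m)) ∧
    ∀ (L : List (List Pass)) (D : Code) (m : ℕ → ℕ), Classical L.zipIdx →
      Movie true false L.zipIdx D → NullMatching D m → Movie true false L.zipIdx [] := by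
  refine ⟨fun L hL => ?_, fun L D m hL h1 h2 => ?_⟩
  · obtain ⟨h1, h2⟩ := links L hL
    refine ⟨h1, h2, fun k hk => ⟨?_, (hk.movie hL).1⟩, fun Z hZ h => h1.1 ?_⟩
    · have := hk.length_le
      simpa using this
    · have h3 := Pool.Agent.Y874.TP2.V127.wmovie_vdel h
      rw [Pool.Agent.Y874.TP2.T4.del_eq hZ] at h3
      exact h3
  · have hn : (L.zipIdx.map Prod.snd).Nodup := by
      rw [List.zipIdx_map_snd]
      exact List.nodup_range'
    obtain ⟨h3, h4⟩ := null_iff_matching.1 h2
    exact h1.trans (movie_mono (ribbon_of_inv _ D le_rfl (classical_of_movie h1 hL)
      (nodup_movie h1 hn) (inv_of_null h3 h4)))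

end Pool.Agent.Results.MP_752436_gt.MatchingCriterion
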