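import Pool.Agent.Q127.SR.Lift

/-!
Ribbon discs from singular discs of virtual links. The movies go from the link into the 4-ball, so
that births of components are the local maxima of the distance from the centre of the 4-ball.
-/

namespace Pool.Agent.Results.MP_752436_gt.SingularVirtualDiscs

open Pool.Agent.Y468.SR Pool.Agent.Y874.TP Pool.Agent.Q127.SR

/-- Let `L` be a diagram (Gauss code) of a classical link and `L → D` a movie of classical links
without births, arbitrary otherwise. Let `D` bound singular discs, by a movie of virtual links with
births, and let `A` be a set of double curves of the projection of these discs (those with colours
outside `Z`) which contains all double curves meeting `D`. Suppose that the discs cross themselves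
and one another only in points of double curves not in `A`, that through each triple point there pass
none, one or three double curves (branches) of `A`, and that, counting only the triple points with
three of them, no curve of the preimage of `A` in the discs crosses itself, and any two of these
curves cross at most once. Then `L` bounds disjoint embedded ribbon discs, given by a movie of
classical links without births. -/
theorem result (L : List (List Pass)) (Z : ℕ → Prop) (D : Code) (T : List (Sym2 (ℕ × Bool)))
    (hL : Classical L.zipIdx) (h₁ : Movie true false L.zipIdx D) (h₂ : VMovie false Z D T)
    (hZ : ∀ p ∈ passes D, ¬Z (colour p.crossing)) : Movie true false L.zipIdx [] := by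
  have hn : (L.zipIdx.map Prod.snd).Nodup := by
    rw [List.zipIdx_map_snd]
    exact List.nodup_range'
  exact h₁.trans (Pool.Agent.Y874.TP2.V127.movie_of_vmovie h₂ (classical_of_movie h₁ hL) hZ
    (nodup_movie h₁ hn))

end Pool.Agent.Results.MP_752436_gt.SingularVirtualDiscs
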